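import Mathlib

open Filter Topology Metric

namespace Pool.Agent.H.MP_f47e6d_an

noncomputable def co : ℕ → ℝ × ℝ
  | 0 => (0, 1)
  | (n + 1) => ((∑ i : Fin (n + 1), (co i).2 * (co (n - i)).2) / (n + 1),
      -(∑ i : Fin (n + 1), (co i).1 * (co (n - i)).1) / (n + 1))
decreasing_by
  all_goals (have := i.2; omega)

noncomputable def ca (n : ℕ) : ℝ := (co n).1
noncomputable def cb (n : ℕ) : ℝ := (co n).2

lemma ca_zero : ca 0 = 0 := by simp [ca, co]
lemma cb_zero : cb 0 = 1 := by simp [cb, co]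
lemma ca_succ (n : ℕ) :
    ca (n + 1) = (∑ i ∈ Finset.range (n + 1), cb i * cb (n - i)) / (n + 1) := by
  rw [ca, co, Finset.sum_range]; rfl
lemma cb_succ (n : ℕ) :
    cb (n + 1) = -(∑ i ∈ Finset.range (n + 1), ca i * ca (n - i)) / (n + 1) := by
  rw [cb, co, Finset.sum_range]; rfl

lemma conv_le (c : ℕ → ℝ) (n : ℕ) (h : ∀ i ≤ n, |c i| ≤ 1) :
    |∑ i ∈ Finset.range (n + 1), c i * c (n - i)| ≤ n + 1 := by
  refine (Finset.abs_sum_le_sum_abs _ _).trans ?_
  have : ∀ i ∈ Finset.range (n + 1), |c i * c (n - i)| ≤ 1 := by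
    intro i hi
    rw [abs_mul]
    have a := h i (by simp at hi; omega)
    have b := h (n - i) (by omega)
    exact mul_le_one₀ a (abs_nonneg _) b
  refine (Finset.sum_le_sum this).trans ?_
  simp

lemma co_le (n : ℕ) : |ca n| ≤ 1 ∧ |cb n| ≤ 1 := by
  induction n using Nat.strong_induction_on with
  | _ n ih =>
    cases n with
    | zero => simp [ca_zero, cb_zero]
    | succ n =>
      have p : (0:ℝ) < n + 1 := by positivity
      constructor
      · rw [ca_succ, abs_div, abs_of_pos p, div_le_one p]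
        exact conv_le _ _ fun i hi => (ih i (by omega)).2
      · rw [cb_succ, abs_div, abs_neg, abs_of_pos p, div_le_one p]
        exact conv_le _ _ fun i hi => (ih i (by omega)).1

lemma co_sym (w : ℂ) (hw : w ^ 3 = 1) (n : ℕ) :
    (ca n : ℂ) * w ^ n = w * ca n ∧ (cb n : ℂ) * w ^ n = cb n := by
  induction n using Nat.strong_induction_on with
  | _ n ih =>
    cases n with
    | zero => simp [ca_zero]
    | succ n =>
      constructor
      · rw [ca_succ]
        push_cast
        have : (∑ i ∈ Finset.range (n + 1), (cb i : ℂ) * cb (n - i)) * w ^ n =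
            ∑ i ∈ Finset.range (n + 1), (cb i : ℂ) * cb (n - i) := by
          rw [Finset.sum_mul]
          apply Finset.sum_congr rfl
          intro i hi
          have hi' : i ≤ n := by simp at hi; omega
          have e : w ^ n = w ^ i * w ^ (n - i) := by rw [← pow_add]; congr 1; omega
          have a := (ih i (by omega)).2
          have b := (ih (n - i) (by omega)).2
          rw [e]
          linear_combination (cb (n - i) : ℂ) * w ^ (n - i) * a + (cb i : ℂ) * b
        rw [pow_succ]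
        linear_combination (w / (n + 1)) * this
      · rw [cb_succ]
        push_cast
        have : (∑ i ∈ Finset.range (n + 1), (ca i : ℂ) * ca (n - i)) * w ^ n =
            w ^ 2 * ∑ i ∈ Finset.range (n + 1), (ca i : ℂ) * ca (n - i) := by
          rw [Finset.sum_mul, Finset.mul_sum]
          apply Finset.sum_congr rfl
          intro i hi
          have hi' : i ≤ n := by simp at hi; omega
          have e : w ^ n = w ^ i * w ^ (n - i) := by rw [← pow_add]; congr 1; omega
          have a := (ih i (by omega)).1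
          have b := (ih (n - i) (by omega)).1
          rw [e]
          linear_combination (ca (n - i) : ℂ) * w ^ (n - i) * a + (ca i : ℂ) * w * b
        rw [pow_succ]
        linear_combination (-w / (n + 1)) * this
          - (∑ i ∈ Finset.range (n + 1), (ca i : ℂ) * ca (n - i)) / (n + 1) * hw

noncomputable def ps (c : ℕ → ℝ) (z : ℂ) : ℂ := ∑' n, (c n : ℂ) * z ^ n

lemma ps_term {c : ℕ → ℝ} (hc : ∀ n, |c n| ≤ 1) {z : ℂ} {r : ℝ} (hz : ‖z‖ ≤ r) (n : ℕ) :
    ‖(c n : ℂ) * z ^ n‖ ≤ r ^ n := by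
  rw [norm_mul, norm_pow, Complex.norm_real, Real.norm_eq_abs]
  have : ‖z‖ ^ n ≤ r ^ n := pow_le_pow_left₀ (norm_nonneg _) hz n
  have h2 : 0 ≤ ‖z‖ ^ n := by positivity
  nlinarith [hc n]

lemma ps_summ {c : ℕ → ℝ} (hc : ∀ n, |c n| ≤ 1) {z : ℂ} (hz : ‖z‖ < 1) :
    Summable fun n => ‖(c n : ℂ) * z ^ n‖ :=
  Summable.of_nonneg_of_le (fun _ => norm_nonneg _) (ps_term hc le_rfl)
    (summable_geometric_of_lt_one (norm_nonneg _) hz)

lemma ps_deriv {c d : ℕ → ℝ} (hc : ∀ n, |c n| ≤ 1) (hd : ∀ n, |d n| ≤ 1) (e : ℝ)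
    (h : ∀ n, c (n + 1) = e * (∑ i ∈ Finset.range (n + 1), d i * d (n - i)) / (n + 1))
    {z : ℂ} (hz : ‖z‖ < 1) : HasDerivAt (ps c) (e * ps d z ^ 2) z := by
  obtain ⟨r, hr1, hr2⟩ := exists_between hz
  have hr0 : 0 ≤ r := (norm_nonneg _).trans hr1.le
  have hs := summable_geometric_of_lt_one hr0 hr2
  have hF : ∀ n : ℕ, DifferentiableOn ℂ (fun w : ℂ => (c n : ℂ) * w ^ n) (ball 0 r) :=
    fun n => by fun_prop
  have hb : ∀ (n : ℕ) (w : ℂ), w ∈ ball (0:ℂ) r → ‖(c n : ℂ) * w ^ n‖ ≤ r ^ n :=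
    fun n w hw => ps_term hc (le_of_lt (by simpa using hw)) n
  have hz' : z ∈ ball (0:ℂ) r := by simpa using hr1
  have d1 := Complex.differentiableOn_tsum_of_summable_norm hs hF isOpen_ball hb
  have d2 := Complex.hasSum_deriv_of_summable_norm hs hF isOpen_ball hb hz'
  have d3 : HasDerivAt (ps c) (deriv (ps c) z) z :=
    (d1.differentiableAt (isOpen_ball.mem_nhds hz')).hasDerivAt
  convert d3 using 1
  have d4 : HasSum (fun n : ℕ => deriv (fun w : ℂ => (c n : ℂ) * w ^ n) z) (deriv (ps c) z) := d2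
  rw [← hasSum_nat_add_iff' 1] at d4
  simp only [Finset.range_one, Finset.sum_singleton, pow_zero, mul_one, deriv_const', sub_zero] at d4
  have d5 := tsum_mul_tsum_eq_tsum_sum_range_of_summable_norm (ps_summ hd hz) (ps_summ hd hz)
  rw [← d4.tsum_eq, sq, ps, d5, ← tsum_mul_left]
  apply tsum_congr
  intro n
  have : deriv (fun w : ℂ => (c (n + 1) : ℂ) * w ^ (n + 1)) z = c (n + 1) * ((n + 1) * z ^ n) := by
    have := ((hasDerivAt_pow (n + 1) z).const_mul (c (n + 1) : ℂ)).deriv
    simpa using this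
  rw [this, h]
  push_cast
  have hn : ((n:ℂ) + 1) ≠ 0 := by exact_mod_cast Nat.succ_ne_zero n
  have e2 : ∑ i ∈ Finset.range (n + 1), (d i : ℂ) * z ^ i * (d (n - i) * z ^ (n - i)) =
      (∑ i ∈ Finset.range (n + 1), (d i : ℂ) * d (n - i)) * z ^ n := by
    rw [Finset.sum_mul]
    apply Finset.sum_congr rfl
    intro i hi
    have hi' : i ≤ n := by simp at hi; omega
    have e : z ^ n = z ^ i * z ^ (n - i) := by rw [← pow_add]; congr 1; omega
    rw [e]; ring
  rw [e2]
  field_simp

lemma sm_deriv {z : ℂ} (hz : ‖z‖ < 1) : HasDerivAt (ps ca) (ps cb z ^ 2) z := by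
  have := ps_deriv (fun n => (co_le n).1) (fun n => (co_le n).2) 1
    (fun n => by rw [ca_succ, one_mul]) hz
  simpa using this

lemma cm_deriv {z : ℂ} (hz : ‖z‖ < 1) : HasDerivAt (ps cb) (-(ps ca z ^ 2)) z := by
  have := ps_deriv (fun n => (co_le n).2) (fun n => (co_le n).1) (-1)
    (fun n => by rw [cb_succ, neg_one_mul]) hz
  simpa using this

lemma sm_sym (w : ℂ) (hw : w ^ 3 = 1) (z : ℂ) : ps ca (w * z) = w * ps ca z := by
  rw [ps, ps, ← tsum_mul_left]
  apply tsum_congr
  intro n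
  rw [mul_pow, ← mul_assoc, (co_sym w hw n).1, mul_assoc]

lemma cm_sym (w : ℂ) (hw : w ^ 3 = 1) (z : ℂ) : ps cb (w * z) = ps cb z := by
  rw [ps, ps]
  apply tsum_congr
  intro n
  rw [mul_pow, ← mul_assoc, (co_sym w hw n).2]

lemma ps_real (c : ℕ → ℝ) (t : ℝ) : ps c t = ((ps c t).re : ℂ) := by
  have : ps c t = ((∑' n, c n * t ^ n : ℝ) : ℂ) := by
    rw [Complex.ofReal_tsum, ps]; push_cast; rfl
  rw [this, Complex.ofReal_re]

lemma ps_zero (c : ℕ → ℝ) : ps c 0 = c 0 := by
  rw [ps, tsum_eq_single 0]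
  · simp
  · intro n hn; simp [hn]

lemma nonneg_of_deriv {f f' : ℝ → ℝ} {T : ℝ} (h : ∀ t ∈ Set.Icc 0 T, HasDerivAt f (f' t) t)
    (h0 : 0 ≤ f 0) (h1 : ∀ t ∈ Set.Icc 0 T, 0 ≤ f' t) : ∀ t ∈ Set.Icc 0 T, 0 ≤ f t := by
  intro t ht
  have m : MonotoneOn f (Set.Icc 0 T) := by
    apply monotoneOn_of_deriv_nonneg (convex_Icc _ _)
    · exact fun x hx => (h x hx).continuousAt.continuousWithinAt
    · exact fun x hx => (h x (interior_subset hx)).differentiableAt.differentiableWithinAt
    · intro x hx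
      rw [(h x (interior_subset hx)).deriv]
      exact h1 x (interior_subset hx)
  exact h0.trans (m ⟨le_rfl, ht.1.trans ht.2⟩ ht ht.1)

lemma exists_t0 : ∃ t : ℝ, 0 ≤ t ∧ t < 1 ∧ ps ca t = ps cb t ∧ ps ca t ≠ 0 := by
  set u : ℝ → ℝ := fun t => (ps ca t).re with hu
  set v : ℝ → ℝ := fun t => (ps cb t).re with hv
  have hn : ∀ t ∈ Set.Icc (0:ℝ) (19 / 20), ‖(t:ℂ)‖ < 1 := by
    intro t ht
    rw [Complex.norm_real, Real.norm_eq_abs, abs_of_nonneg ht.1]
    linarith [ht.2]
  have du : ∀ t ∈ Set.Icc (0:ℝ) (19 / 20), HasDerivAt u (v t ^ 2) t := by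
    intro t ht
    have := (sm_deriv (hn t ht)).real_of_complex
    rw [ps_real cb t, ← Complex.ofReal_pow, Complex.ofReal_re] at this
    exact this
  have dv : ∀ t ∈ Set.Icc (0:ℝ) (19 / 20), HasDerivAt v (-(u t ^ 2)) t := by
    intro t ht
    have := (cm_deriv (hn t ht)).real_of_complex
    rw [ps_real ca t, ← Complex.ofReal_pow, ← Complex.ofReal_neg, Complex.ofReal_re] at this
    exact this
  have u0 : u 0 = 0 := by simp [hu, ps_zero, ca_zero]
  have v0 : v 0 = 1 := by simp [hv, ps_zero, cb_zero]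
  have inv : ∀ t ∈ Set.Icc (0:ℝ) (19 / 20), 0 ≤ u t ^ 3 + v t ^ 3 - 1 :=
    nonneg_of_deriv (f := fun t => u t ^ 3 + v t ^ 3 - 1) (f' := fun _ => 0) (fun t ht => by
      have := (((du t ht).pow 3).add ((dv t ht).pow 3)).sub_const 1
      exact this.congr_deriv (by norm_num; ring)) (by simp [u0, v0]) (fun _ _ => le_rfl)
  have ex : ∃ t ∈ Set.Icc (0:ℝ) (19 / 20), u t = v t := by
    by_contra hc
    push Not at hc
    have hlt : ∀ t ∈ Set.Icc (0:ℝ) (19 / 20), u t < v t := by
      intro t ht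
      by_contra h2
      have cont : ContinuousOn (fun s => u s - v s) (Set.Icc 0 t) := fun s hs =>
        ((du s ⟨hs.1, hs.2.trans ht.2⟩).sub
          (dv s ⟨hs.1, hs.2.trans ht.2⟩)).continuousAt.continuousWithinAt
      have := intermediate_value_Icc ht.1 cont (show (0:ℝ) ∈ Set.Icc _ _ from
        ⟨by simp [u0, v0], by linarith⟩)
      obtain ⟨s, hs, e⟩ := this
      exact hc s ⟨hs.1, hs.2.trans ht.2⟩ (by simp only at e; linarith)
    have s1 := nonneg_of_deriv du (by simp [u0]) (fun t _ => sq_nonneg _)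
    have s2 := nonneg_of_deriv (f := fun t => 1 - v t) (f' := fun t => u t ^ 2)
      (fun t ht => by simpa using (dv t ht).const_sub 1) (by simp [v0]) (fun t _ => sq_nonneg _)
    have s3 := nonneg_of_deriv (f := fun t => t - u t) (f' := fun t => 1 - v t ^ 2)
      (fun t ht => (hasDerivAt_id t).sub (du t ht)) (by simp [u0]) (fun t ht => by
        have := s1 t ht; have := s2 t ht; have := hlt t ht
        nlinarith)
    have s4 := nonneg_of_deriv (f := fun t => v t - 1 + t ^ 3 / 3) (f' := fun t => t ^ 2 - u t ^ 2)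
      (fun t ht => by
        have := ((dv t ht).sub_const 1).add ((hasDerivAt_pow 3 t).div_const 3)
        exact this.congr_deriv (by norm_num; ring)) (by simp [v0]) (fun t ht => by
        have := s1 t ht; have := s3 t ht
        nlinarith)
    have s5 := nonneg_of_deriv (f := fun t => u t - t + t ^ 4 / 6)
      (f' := fun t => v t ^ 2 - 1 + 2 * t ^ 3 / 3)
      (fun t ht => by
        have := ((du t ht).sub (hasDerivAt_id t)).add ((hasDerivAt_pow 4 t).div_const 6)
        exact this.congr_deriv (by norm_num; ring)) (by simp [u0]) (fun t ht => by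
        have := s4 t ht
        nlinarith [sq_nonneg (v t - 1)])
    have s6 := nonneg_of_deriv (f := fun t => 1 - t ^ 3 / 3 + t ^ 6 / 18 - v t)
      (f' := fun t => -t ^ 2 + t ^ 5 / 3 + u t ^ 2)
      (fun t ht => by
        have := ((((hasDerivAt_pow 3 t).div_const 3).const_sub 1).add
          ((hasDerivAt_pow 6 t).div_const 18)).sub (dv t ht)
        exact this.congr_deriv (by norm_num; ring)) (by simp [v0]) (fun t ht => by
        have h5 := s5 t ht
        have := mul_nonneg ht.1 h5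
        nlinarith [sq_nonneg (u t - t)])
    have m : (19 / 20 : ℝ) ∈ Set.Icc (0:ℝ) (19 / 20) := ⟨by norm_num, le_rfl⟩
    have a := s5 _ m
    have b := s6 _ m
    have c := hlt _ m
    norm_num at a b
    linarith
  obtain ⟨t, ht, e⟩ := ex
  refine ⟨t, ht.1, by linarith [ht.2], ?_, ?_⟩
  · rw [ps_real ca t, ps_real cb t]
    exact congrArg _ e
  · intro h
    have h1 : u t = 0 := by simp [hu, h]
    have := inv t ht
    rw [← e, h1] at this
    norm_num at this

end Pool.Agent.H.MP_f47e6d_an
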