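import Pool.Agent.H.MP_f47e6d_an.A

open Filter Topology Metric

namespace Pool.Agent.H.MP_f47e6d_an

lemma taylor {U V : ℂ → ℂ} {ρ M : ℝ} (hM0 : 0 ≤ M)
    (hU : ∀ z ∈ closedBall (0:ℂ) ρ, HasDerivAt U (V z ^ 2) z)
    (hV : ∀ z ∈ closedBall (0:ℂ) ρ, HasDerivAt V (U z ^ 2) z)
    (bU : ∀ z ∈ closedBall (0:ℂ) ρ, ‖U z‖ ≤ M) (bV : ∀ z ∈ closedBall (0:ℂ) ρ, ‖V z‖ ≤ M)
    {τ h : ℂ} (h1 : τ ∈ closedBall (0:ℂ) ρ) (h2 : τ + h ∈ closedBall (0:ℂ) ρ) :
    ‖U (τ + h) - U τ - h * V τ ^ 2‖ ≤ 2 * M ^ 3 * ‖h‖ ^ 2 := by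
  have lip : ∀ z ∈ closedBall (0:ℂ) ρ, ‖V z - V τ‖ ≤ M ^ 2 * ‖z - τ‖ := by
    intro z hz
    apply (convex_closedBall (0:ℂ) ρ).norm_image_sub_le_of_norm_hasDerivWithin_le
      (f' := fun z => U z ^ 2) (fun x hx => (hV x hx).hasDerivWithinAt) _ h1 hz
    intro x hx
    rw [norm_pow]
    exact pow_le_pow_left₀ (norm_nonneg _) (bU x hx) 2
  have cv : Convex ℝ (closedBall (0:ℂ) ρ ∩ closedBall τ ‖h‖) :=
    (convex_closedBall _ _).inter (convex_closedBall _ _)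
  have := cv.norm_image_sub_le_of_norm_hasDerivWithin_le (f := fun z => U z - z * V τ ^ 2)
    (f' := fun z => V z ^ 2 - V τ ^ 2) (C := 2 * M ^ 3 * ‖h‖) (x := τ) (y := τ + h)
    (fun x hx => by
      have := (hU x hx.1).sub ((hasDerivAt_id x).mul_const (V τ ^ 2))
      rw [one_mul] at this
      exact this.hasDerivWithinAt)
    (fun x hx => by
      have e : V x ^ 2 - V τ ^ 2 = (V x + V τ) * (V x - V τ) := by ring
      rw [e, norm_mul]
      have a1 : ‖V x + V τ‖ ≤ 2 * M := by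
        linarith [norm_add_le (V x) (V τ), bV x hx.1, bV τ h1]
      have a2 : ‖V x - V τ‖ ≤ M ^ 2 * ‖h‖ := by
        refine (lip x hx.1).trans ?_
        have : ‖x - τ‖ ≤ ‖h‖ := by simpa [dist_eq_norm] using hx.2
        gcongr
      calc _ ≤ (2 * M) * (M ^ 2 * ‖h‖) := mul_le_mul a1 a2 (norm_nonneg _) (by positivity)
        _ = _ := by ring)
    ⟨h1, by simp⟩ ⟨h2, by simp⟩
  have e : U (τ + h) - U τ - h * V τ ^ 2 =
      U (τ + h) - (τ + h) * V τ ^ 2 - (U τ - τ * V τ ^ 2) := by ring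
  rw [e]
  refine this.trans (le_of_eq ?_)
  simp; ring

def fh (h : ℂ) (w : ℂ × ℂ) : ℂ × ℂ := (w.1 + h * w.2 ^ 2, w.2 + h * (w.1 + h * w.2 ^ 2) ^ 2)

lemma step {u v U V U' V' h : ℂ} {M e η C0 : ℝ} (hM : 0 ≤ M) (he : e ≤ 1) (hη : η ≤ 1)
    (hh : ‖h‖ ≤ η) (a1 : ‖u - U‖ ≤ e) (a2 : ‖v - V‖ ≤ e) (b1 : ‖U‖ ≤ M) (b2 : ‖V‖ ≤ M)
    (c1 : ‖U' - U - h * V ^ 2‖ ≤ C0 * η ^ 2) (c2 : ‖V' - V - h * U ^ 2‖ ≤ C0 * η ^ 2) :
    ‖(fh h (u, v)).1 - U'‖ ≤ (1 + (2 * M + 1 + (M + 1) ^ 2) * η) * e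
      + (C0 + (M + 1) ^ 2 * (2 * M + 1 + (M + 1) ^ 2)) * η ^ 2 ∧
    ‖(fh h (u, v)).2 - V'‖ ≤ (1 + (2 * M + 1 + (M + 1) ^ 2) * η) * e
      + (C0 + (M + 1) ^ 2 * (2 * M + 1 + (M + 1) ^ 2)) * η ^ 2 := by
  have he0 : 0 ≤ e := (norm_nonneg _).trans a1
  have hη0 : 0 ≤ η := (norm_nonneg _).trans hh
  have nv : ‖v‖ ≤ M + 1 := by
    have : v = (v - V) + V := by ring
    rw [this]; linarith [norm_add_le (v - V) V]
  have nu : ‖u‖ ≤ M + 1 := by
    have : u = (u - U) + U := by ring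
    rw [this]; linarith [norm_add_le (u - U) U]
  have nhv : ‖h * v ^ 2‖ ≤ η * (M + 1) ^ 2 := by
    rw [norm_mul, norm_pow]; gcongr
  set L := 2 * M + 1 + (M + 1) ^ 2 with hL
  have hL0 : 0 ≤ L := by positivity
  constructor
  · have e1 : (fh h (u, v)).1 - U' = (u - U) + h * ((v - V) * (v + V)) - (U' - U - h * V ^ 2) := by
      simp only [fh]; ring
    rw [e1]
    have s1 : ‖h * ((v - V) * (v + V))‖ ≤ η * (e * L) := by
      rw [norm_mul, norm_mul]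
      have : ‖v + V‖ ≤ L := by nlinarith [norm_add_le v V, sq_nonneg (M + 1)]
      gcongr
    have s2 := norm_sub_le ((u - U) + h * ((v - V) * (v + V))) (U' - U - h * V ^ 2)
    have s3 := norm_add_le (u - U) (h * ((v - V) * (v + V)))
    have s4 : 0 ≤ (M + 1) ^ 2 * L * η ^ 2 := by positivity
    nlinarith
  · have e1 : (fh h (u, v)).2 - V' = (v - V) + h * ((u - U + h * v ^ 2) * (u + U + h * v ^ 2))
        - (V' - V - h * U ^ 2) := by
      simp only [fh]; ring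
    rw [e1]
    have s1 : ‖h * ((u - U + h * v ^ 2) * (u + U + h * v ^ 2))‖ ≤
        η * ((e + η * (M + 1) ^ 2) * L) := by
      rw [norm_mul, norm_mul]
      have t1 : ‖u - U + h * v ^ 2‖ ≤ e + η * (M + 1) ^ 2 := by
        linarith [norm_add_le (u - U) (h * v ^ 2)]
      have t2 : ‖u + U + h * v ^ 2‖ ≤ L := by
        have : η * (M + 1) ^ 2 ≤ (M + 1) ^ 2 := mul_le_of_le_one_left (sq_nonneg _) hη
        linarith [norm_add_le (u + U) (h * v ^ 2), norm_add_le u U]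
      gcongr
    have s2 := norm_sub_le ((v - V) + h * ((u - U + h * v ^ 2) * (u + U + h * v ^ 2)))
      (V' - V - h * U ^ 2)
    have s3 := norm_add_le (v - V) (h * ((u - U + h * v ^ 2) * (u + U + h * v ^ 2)))
    nlinarith

lemma approx {U V : ℂ → ℂ} {ρ M : ℝ} (hM0 : 0 ≤ M)
    (hU : ∀ z ∈ closedBall (0:ℂ) ρ, HasDerivAt U (V z ^ 2) z)
    (hV : ∀ z ∈ closedBall (0:ℂ) ρ, HasDerivAt V (U z ^ 2) z)
    (bU : ∀ z ∈ closedBall (0:ℂ) ρ, ‖U z‖ ≤ M) (bV : ∀ z ∈ closedBall (0:ℂ) ρ, ‖V z‖ ≤ M)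
    (B : ℝ) (hB : 0 ≤ B) : ∃ K : ℝ, 0 ≤ K ∧ ∀ n : ℕ, 0 < n → K ≤ n → B ≤ n → ∀ τ s : ℂ, ‖s‖ ≤ B →
      τ ∈ closedBall (0:ℂ) ρ → τ + s ∈ closedBall (0:ℂ) ρ → ∀ j ≤ n,
      ‖((fh (s / n))^[j] (U τ, V τ)).1 - U (τ + j * (s / n))‖ ≤ K / n ∧
      ‖((fh (s / n))^[j] (U τ, V τ)).2 - V (τ + j * (s / n))‖ ≤ K / n := by
  set L := 2 * M + 1 + (M + 1) ^ 2 with hL
  set C := 2 * M ^ 3 + (M + 1) ^ 2 * L with hC
  have hL0 : 0 ≤ L := by positivity
  have hC0 : 0 ≤ C := by positivity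
  refine ⟨C * B ^ 2 * Real.exp (L * B), by positivity, ?_⟩
  intro n hn hK hBn τ s hs h1 h2
  have hn' : (0:ℝ) < n := by exact_mod_cast hn
  set η := B / n with hη
  have hη0 : 0 ≤ η := by positivity
  have hη1 : η ≤ 1 := by rw [hη, div_le_one hn']; exact hBn
  have hh : ‖s / n‖ ≤ η := by
    rw [norm_div, Complex.norm_natCast]; exact div_le_div_of_nonneg_right hs hn'.le
  have mem : ∀ j ≤ n, τ + j * (s / n) ∈ closedBall (0:ℂ) ρ := by
    intro j hj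
    have hj' : (j:ℝ) ≤ n := by exact_mod_cast hj
    have := (convex_closedBall (0:ℂ) ρ).add_smul_mem h1 h2 (t := (j:ℝ) / n)
      ⟨by positivity, by rw [div_le_one hn']; exact hj'⟩
    convert this using 2
    simp; ring
  have bd : ∀ j ≤ n, (j:ℝ) * (C * η ^ 2) * (1 + L * η) ^ j ≤ C * B ^ 2 * Real.exp (L * B) / n := by
    intro j hj
    have hj' : (j:ℝ) ≤ n := by exact_mod_cast hj
    have e1 : (1 + L * η) ^ j ≤ Real.exp (L * B) := by
      calc (1 + L * η) ^ j ≤ (1 + L * η) ^ n :=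
            pow_le_pow_right₀ (by nlinarith [mul_nonneg hL0 hη0]) hj
        _ ≤ (Real.exp (L * η)) ^ n := by
            apply pow_le_pow_left₀ (by positivity)
            linarith [Real.add_one_le_exp (L * η)]
        _ = Real.exp (L * B) := by
            rw [← Real.exp_nat_mul, hη]; congr 1; field_simp
    calc (j:ℝ) * (C * η ^ 2) * (1 + L * η) ^ j ≤ n * (C * η ^ 2) * Real.exp (L * B) := by gcongr
      _ = _ := by rw [hη]; field_simp
  have main : ∀ j ≤ n,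
      ‖((fh (s / n))^[j] (U τ, V τ)).1 - U (τ + j * (s / n))‖ ≤ j * (C * η ^ 2) * (1 + L * η) ^ j ∧
      ‖((fh (s / n))^[j] (U τ, V τ)).2 - V (τ + j * (s / n))‖ ≤ j * (C * η ^ 2) * (1 + L * η) ^ j := by
    intro j
    induction j with
    | zero => intro _; simp
    | succ j ih =>
      intro hj
      obtain ⟨i1, i2⟩ := ih (by omega)
      have m1 := mem j (by omega)
      have m2 := mem (j + 1) hj
      have e : τ + ((j + 1 : ℕ) : ℂ) * (s / n) = τ + j * (s / n) + s / n := by push_cast; ring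
      rw [e] at m2 ⊢
      have he : (j:ℝ) * (C * η ^ 2) * (1 + L * η) ^ j ≤ 1 :=
        (bd j (by omega)).trans (by rw [div_le_one hn']; exact hK)
      have hsq : 2 * M ^ 3 * ‖s / n‖ ^ 2 ≤ 2 * M ^ 3 * η ^ 2 := by gcongr
      have t1 := (taylor hM0 hU hV bU bV m1 m2).trans hsq
      have t2 := (taylor hM0 hV hU bV bU m1 m2).trans hsq
      have st := step hM0 he hη1 hh i1 i2 (bU _ m1) (bV _ m1) t1 t2
      rw [Function.iterate_succ_apply']
      have fin : (1 + L * η) * (j * (C * η ^ 2) * (1 + L * η) ^ j) + C * η ^ 2 ≤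
          ((j + 1 : ℕ) : ℝ) * (C * η ^ 2) * (1 + L * η) ^ (j + 1) := by
        have o : 1 ≤ (1 + L * η) ^ (j + 1) := one_le_pow₀ (by nlinarith [mul_nonneg hL0 hη0])
        have o2 : 0 ≤ C * η ^ 2 := by positivity
        push_cast
        have : C * η ^ 2 ≤ C * η ^ 2 * (1 + L * η) ^ (j + 1) := le_mul_of_one_le_right o2 o
        calc _ = j * (C * η ^ 2) * (1 + L * η) ^ (j + 1) + C * η ^ 2 := by ring
          _ ≤ j * (C * η ^ 2) * (1 + L * η) ^ (j + 1) + C * η ^ 2 * (1 + L * η) ^ (j + 1) := by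
            linarith
          _ = _ := by ring
      exact ⟨st.1.trans fin, st.2.trans fin⟩
  intro j hj
  exact ⟨(main j hj).1.trans (bd j hj), (main j hj).2.trans (bd j hj)⟩

lemma fh_diff (n : ℕ) (w : ℂ × ℂ) (j : ℕ) :
    Differentiable ℂ (fun s : ℂ => ((fh (s / n))^[j] w).1) ∧
    Differentiable ℂ (fun s : ℂ => ((fh (s / n))^[j] w).2) := by
  induction j with
  | zero => simp
  | succ j ih =>
    obtain ⟨a, b⟩ := ih
    simp only [Function.iterate_succ_apply', fh]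
    constructor <;> fun_prop

lemma hurw {G g : ℂ → ℂ} {c : ℂ} {r m : ℝ} (hr : 0 < r) (hm : 0 < m) (hg : Differentiable ℂ g)
    (h0 : G c = 0) (h1 : ∀ s ∈ sphere c r, m ≤ ‖G s‖)
    (h2 : ∀ s ∈ closedBall c r, ‖g s - G s‖ < m / 2) : ∃ s ∈ closedBall c r, g s = 0 := by
  by_contra hc
  push Not at hc
  have d : DiffContOnCl ℂ (fun s => (g s)⁻¹) (ball c r) := by
    apply DifferentiableOn.diffContOnCl
    rw [closure_ball c hr.ne']
    exact hg.differentiableOn.inv hc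
  have := Complex.norm_le_of_forall_mem_frontier_norm_le isBounded_ball d (C := (m / 2)⁻¹)
    (z := c) (fun z hz => by
      rw [frontier_ball c hr.ne'] at hz
      rw [norm_inv]
      apply inv_anti₀ (by positivity)
      have a := h1 z hz
      have b := h2 z (sphere_subset_closedBall hz)
      have := norm_sub_norm_le (G z) (g z)
      rw [norm_sub_rev] at this
      linarith) (subset_closure (mem_ball_self hr))
  have b := h2 c (mem_closedBall_self hr.le)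
  rw [h0, sub_zero] at b
  rw [norm_inv] at this
  have p : 0 < ‖g c‖ := norm_pos_iff.2 (hc c (mem_closedBall_self hr.le))
  have := (inv_le_inv₀ p (by positivity)).1 this
  linarith

end Pool.Agent.H.MP_f47e6d_an
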