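import Pool.Agent.H.MP_f47e6d_an.B

open Filter Topology Metric

namespace Pool.Agent.H.MP_f47e6d_an

lemma fh_scale (h : ℂ) (w : ℂ × ℂ) (j : ℕ) :
    (fh 1)^[j] (h * w.1, h * w.2) = (h * ((fh h)^[j] w).1, h * ((fh h)^[j] w).2) := by
  induction j with
  | zero => rfl
  | succ j ih =>
    rw [Function.iterate_succ_apply', Function.iterate_succ_apply', ih]
    simp only [fh]
    congr 1 <;> ring

lemma sym (w : ℂ) (hw : w ^ 3 = 1) (p : ℂ × ℂ) (n : ℕ) (hn : 0 < n) (δ : ℝ) (hp : p.2 = -p.1)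
    (hq : ((fh 1)^[n] p).1 + w * ((fh 1)^[n] p).2 = 0)
    (hb : ∀ j ≤ n, ‖((fh 1)^[j] p).1‖ ≤ δ ∧ ‖((fh 1)^[j] p).2‖ ≤ δ) :
    (fh 1)^[2 * n + 2 * n + 2 * n] p = p ∧
      ∀ k, ‖((fh 1)^[k] p).1‖ ≤ δ ∧ ‖((fh 1)^[k] p).2‖ ≤ δ := by
  let R : ℂ × ℂ → ℂ × ℂ := fun q => (-(w * q.2), -(w ^ 2 * q.1))
  let S : ℂ × ℂ → ℂ × ℂ := fun q => (w * q.1, w ^ 2 * q.2)
  have nw : ‖w‖ = 1 := by
    have : ‖w‖ ^ 3 = 1 := by rw [← norm_pow, hw, norm_one]
    exact (pow_eq_one_iff_of_nonneg (norm_nonneg _) (by norm_num)).1 this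
  have f1 : ∀ q, fh 1 (R (fh 1 q)) = R q := by
    intro q
    have e : -(w * (q.2 + 1 * (q.1 + 1 * q.2 ^ 2) ^ 2)) + 1 * (-(w ^ 2 * (q.1 + 1 * q.2 ^ 2))) ^ 2
        = -(w * q.2) := by
      linear_combination w * (q.1 + q.2 ^ 2) ^ 2 * hw
    simp only [fh, R]
    rw [e]
    congr 1; ring
  have f2 : ∀ q, fh 1 (S q) = S (fh 1 q) := by
    intro q
    have e : w * q.1 + 1 * (w ^ 2 * q.2) ^ 2 = w * (q.1 + 1 * q.2 ^ 2) := by
      linear_combination w * q.2 ^ 2 * hw
    simp only [fh, S]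
    rw [e]
    congr 1; ring
  have f3 : ∀ k q, (fh 1)^[k] (S q) = S ((fh 1)^[k] q) := by
    intro k q
    induction k with
    | zero => rfl
    | succ k ih => rw [Function.iterate_succ_apply', Function.iterate_succ_apply', ih, f2]
  have A : ∀ j ≤ n, (fh 1)^[n + j] p = R ((fh 1)^[n - j] p) := by
    intro j
    induction j with
    | zero =>
      intro _
      simp only [R, add_zero, Nat.sub_zero]
      apply Prod.ext
      · simp only; linear_combination hq
      · simp only; linear_combination w ^ 2 * hq - ((fh 1)^[n] p).2 * hw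
    | succ j ih =>
      intro hj
      rw [← add_assoc, Function.iterate_succ_apply', ih (by omega),
        show n - j = (n - (j + 1)) + 1 by omega, Function.iterate_succ_apply', f1]
  have B : (fh 1)^[2 * n] p = S p := by
    rw [two_mul, A n le_rfl]
    simp only [R, S, Nat.sub_self, Function.iterate_zero, id, hp]
    congr 1 <;> ring
  constructor
  · rw [Function.iterate_add_apply, Function.iterate_add_apply, B, f3, B, f3, f3, B]
    simp only [S]
    apply Prod.ext
    · simp only; linear_combination p.1 * hw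
    · simp only; linear_combination p.2 * (w ^ 3 + 1) * hw
  · intro k
    induction k using Nat.strong_induction_on with
    | _ k ih =>
      by_cases h1 : k ≤ n
      · exact hb k h1
      by_cases h2 : k ≤ 2 * n
      · obtain ⟨j, rfl⟩ : ∃ j, k = n + j := ⟨k - n, by omega⟩
        rw [A j (by omega)]
        have := hb (n - j) (by omega)
        simp only [R, norm_neg, norm_mul, norm_pow, nw, one_pow, one_mul]
        exact this.symm
      · obtain ⟨j, rfl⟩ : ∃ j, k = j + 2 * n := ⟨k - 2 * n, by omega⟩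
        rw [Function.iterate_add_apply, B, f3]
        have := ih j (by omega)
        simp only [S, norm_mul, norm_pow, nw, one_pow, one_mul]
        exact this

lemma small (δ : ℝ) (hδ : 0 < δ) : ∃ (p : ℂ × ℂ) (N : ℕ), 0 < N ∧ p ≠ 0 ∧ (fh 1)^[N] p = p ∧
    ∀ k, ‖((fh 1)^[k] p).1‖ ≤ δ ∧ ‖((fh 1)^[k] p).2‖ ≤ δ := by
  obtain ⟨w, hw1, hw⟩ : ∃ w : ℂ, w ≠ 1 ∧ w ^ 3 = 1 := by
    have := Complex.isPrimitiveRoot_exp 3 (by norm_num)
    exact ⟨_, this.ne_one (by norm_num), this.pow_eq_one⟩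
  have nw : ‖w‖ = 1 := by
    have : ‖w‖ ^ 3 = 1 := by rw [← norm_pow, hw, norm_one]
    exact (pow_eq_one_iff_of_nonneg (norm_nonneg _) (by norm_num)).1 this
  obtain ⟨t, t0, t1, e1, e2⟩ := exists_t0
  obtain ⟨ρ, r1, r2⟩ := exists_between t1
  set U : ℂ → ℂ := ps ca with hUd
  set V : ℂ → ℂ := fun z => -ps cb z with hVd
  have lt1 : ∀ z ∈ closedBall (0:ℂ) ρ, ‖z‖ < 1 := fun z hz => by
    have : ‖z‖ ≤ ρ := by simpa using hz
    linarith
  have hU : ∀ z ∈ closedBall (0:ℂ) ρ, HasDerivAt U (V z ^ 2) z := fun z hz => by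
    simpa [hVd] using sm_deriv (lt1 z hz)
  have hV : ∀ z ∈ closedBall (0:ℂ) ρ, HasDerivAt V (U z ^ 2) z := fun z hz => by
    have := (cm_deriv (lt1 z hz)).neg
    rw [neg_neg] at this
    exact this
  obtain ⟨M1, hM1⟩ := (isCompact_closedBall (0:ℂ) ρ).exists_bound_of_continuousOn
    (fun z hz => (hU z hz).continuousAt.continuousWithinAt)
  obtain ⟨M2, hM2⟩ := (isCompact_closedBall (0:ℂ) ρ).exists_bound_of_continuousOn
    (fun z hz => (hV z hz).continuousAt.continuousWithinAt)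
  set M := max (max M1 M2) 0 with hM
  have bU : ∀ z ∈ closedBall (0:ℂ) ρ, ‖U z‖ ≤ M := fun z hz =>
    (hM1 z hz).trans ((le_max_left _ _).trans (le_max_left _ _))
  have bV : ∀ z ∈ closedBall (0:ℂ) ρ, ‖V z‖ ≤ M := fun z hz =>
    (hM2 z hz).trans ((le_max_right _ _).trans (le_max_left _ _))
  have hM0 : 0 ≤ M := le_max_right _ _
  obtain ⟨K, hK0, hK⟩ := approx hM0 hU hV bU bV 2 (by norm_num)
  have nt : ‖(t:ℂ)‖ = t := by rw [Complex.norm_real, Real.norm_eq_abs, abs_of_nonneg t0]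
  have mt : (t:ℂ) ∈ closedBall (0:ℂ) ρ := by simp only [mem_closedBall, dist_zero_right, nt, r1.le]
  set c : ℂ := w * t - t with hc
  have mem : ∀ s ∈ closedBall c (ρ - t), (t:ℂ) + s ∈ closedBall (0:ℂ) ρ := by
    intro s hs
    have a : ‖s - c‖ ≤ ρ - t := by simpa [dist_eq_norm] using hs
    have e : (t:ℂ) + s = w * t + (s - c) := by rw [hc]; ring
    have b : ‖w * (t:ℂ)‖ = t := by rw [norm_mul, nw, nt, one_mul]
    simp only [mem_closedBall, dist_zero_right]
    rw [e]; linarith [norm_add_le (w * t) (s - c)]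
  set G : ℂ → ℂ := fun s => U (t + s) + w * V (t + s) with hG
  have ec : (t:ℂ) + c = w * t := by rw [hc]; ring
  have Vt : V t = -U t := by simp only [hVd, ← e1]
  have G0 : G c = 0 := by
    simp only [hG, ec, hVd, hUd, sm_sym w hw, cm_sym w hw]
    linear_combination w * e1
  have dG : ∀ s ∈ closedBall c (ρ - t),
      HasDerivAt G (V (t + s) ^ 2 + w * U (t + s) ^ 2) s := fun s hs =>
    ((hU _ (mem s hs)).comp_const_add _ _).add (((hV _ (mem s hs)).comp_const_add _ _).const_mul w)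
  have ne : ∀ᶠ s in 𝓝[≠] c, G s ≠ G c := by
    apply (dG c (mem_closedBall_self (by linarith))).eventually_ne
    simp only [ec, hVd, hUd, sm_sym w hw, cm_sym w hw, ← e1]
    have : (-ps ca t) ^ 2 + w * (w * ps ca t) ^ 2 = 2 * ps ca t ^ 2 := by
      linear_combination (ps ca t) ^ 2 * hw
    rw [this]
    exact mul_ne_zero two_ne_zero (pow_ne_zero _ e2)
  rw [eventually_nhdsWithin_iff, Metric.eventually_nhds_iff] at ne
  obtain ⟨ε, hε, ne⟩ := ne
  set r := min (ε / 2) (ρ - t) with hr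
  have hr0 : 0 < r := lt_min (by linarith) (by linarith)
  have sub : closedBall c r ⊆ closedBall c (ρ - t) := closedBall_subset_closedBall (min_le_right _ _)
  obtain ⟨z, hz, hmin⟩ := (isCompact_sphere c r).exists_isMinOn (f := fun s => ‖G s‖)
    (NormedSpace.sphere_nonempty.2 hr0.le)
    (fun s hs => (dG s (sub (sphere_subset_closedBall hs))).continuousAt.norm.continuousWithinAt)
  have hm : 0 < ‖G z‖ := by
    rw [norm_pos_iff, ← G0]
    have d : dist z c = r := hz
    apply ne (by rw [d]; linarith [min_le_left (ε / 2) (ρ - t)])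
    intro h
    rw [Set.mem_singleton_iff.1 h, dist_self] at d
    linarith
  obtain ⟨n, hn⟩ := exists_nat_gt (max (max K 2) (max (4 * K / ‖G z‖) (2 * (M + 1) / δ)))
  simp only [max_lt_iff] at hn
  obtain ⟨⟨n1, n2⟩, n3, n4⟩ := hn
  have hn' : (0:ℝ) < n := by linarith
  have hn0 : 0 < n := by exact_mod_cast hn'
  have s2 : ∀ s ∈ closedBall c r, ‖s‖ ≤ 2 := by
    intro s hs
    have a := lt1 _ (mem s (sub hs))
    have e : s = (t + s) - t := by ring
    rw [e]; linarith [norm_sub_le ((t:ℂ) + s) t]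
  have ap := fun s (hs : s ∈ closedBall c r) =>
    hK n hn0 n1.le n2.le t s (s2 s hs) mt (mem s (sub hs))
  have hn2 : (n:ℂ) ≠ 0 := by exact_mod_cast hn0.ne'
  obtain ⟨s, hs, hs0⟩ := hurw (G := G)
    (g := fun s => ((fh (s / n))^[n] (U t, V t)).1 + w * ((fh (s / n))^[n] (U t, V t)).2)
    hr0 hm ((fh_diff n _ n).1.add ((fh_diff n _ n).2.const_mul w)) G0 (fun s hs => hmin hs)
    (fun s hs => by
      obtain ⟨a, b⟩ := ap s hs n le_rfl
      rw [mul_div_cancel₀ _ hn2] at a b
      have e : ((fh (s / n))^[n] (U t, V t)).1 + w * ((fh (s / n))^[n] (U t, V t)).2 - G s =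
          (((fh (s / n))^[n] (U t, V t)).1 - U (t + s))
            + w * (((fh (s / n))^[n] (U t, V t)).2 - V (t + s)) := by
        simp only [hG]; ring
      rw [e]
      refine (norm_add_le _ _).trans_lt ?_
      rw [norm_mul, nw, one_mul]
      have : K / n < ‖G z‖ / 4 := by
        rw [div_lt_iff₀ hm] at n3
        rw [div_lt_iff₀ hn']; linarith
      linarith)
  have sne : s ≠ 0 := by
    rintro rfl
    have : (fh (0 / n))^[n] (U t, V t) = (U t, V t) := by
      apply Function.iterate_fixed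
      simp [fh]
    rw [this, Vt] at hs0
    have : (1 - w) * U t = 0 := by linear_combination hs0
    rcases mul_eq_zero.1 this with h | h
    · exact hw1 (by linear_combination -h)
    · exact e2 h
  have sc := fh_scale (s / n) (U t, V t)
  have key := sym w hw (s / n * U t, s / n * V t) n hn0 δ (by simp only [Vt]; ring)
    (by rw [sc]; simp only; linear_combination (s / n) * hs0)
    (fun j hj => by
      rw [sc]
      obtain ⟨a, b⟩ := ap s hs j hj
      have hj' : (j:ℝ) ≤ n := by exact_mod_cast hj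
      have m : (t:ℂ) + j * (s / n) ∈ closedBall (0:ℂ) ρ := by
        have := (convex_closedBall (0:ℂ) ρ).add_smul_mem mt (mem s (sub hs)) (t := (j:ℝ) / n)
          ⟨by positivity, by rw [div_le_one hn']; exact hj'⟩
        convert this using 2
        simp; ring
      have k1 : K / n ≤ 1 := by rw [div_le_one hn']; exact n1.le
      have hh : ‖s / n‖ ≤ 2 / n := by
        rw [norm_div, Complex.norm_natCast]
        exact div_le_div_of_nonneg_right (s2 s hs) hn'.le
      have fin : 2 / (n:ℝ) * (M + 1) ≤ δ := by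
        rw [div_lt_iff₀ hδ] at n4
        rw [div_mul_eq_mul_div, div_le_iff₀ hn']; linarith
      have c1 : ‖((fh (s / n))^[j] (U t, V t)).1‖ ≤ M + 1 := by
        linarith [norm_sub_norm_le ((fh (s / n))^[j] (U t, V t)).1 (U (t + j * (s / n))), bU _ m]
      have c2 : ‖((fh (s / n))^[j] (U t, V t)).2‖ ≤ M + 1 := by
        linarith [norm_sub_norm_le ((fh (s / n))^[j] (U t, V t)).2 (V (t + j * (s / n))), bV _ m]
      simp only [norm_mul]
      exact ⟨(mul_le_mul hh c1 (norm_nonneg _) (by positivity)).trans fin,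
        (mul_le_mul hh c2 (norm_nonneg _) (by positivity)).trans fin⟩)
  refine ⟨_, _, by omega, ?_, key.1, key.2⟩
  intro h
  have := congrArg Prod.fst h
  simp only [Prod.fst_zero, mul_eq_zero, div_eq_zero_iff] at this
  rcases this with (h | h) | h
  · exact sne h
  · exact hn2 h
  · exact e2 h

theorem main :
    ∀ U ∈ nhds ((0 : ℂ × ℂ)), ∃ p : ℂ × ℂ, ∃ n : ℕ, 0 < n ∧
      Function.IsPeriodicPt (fun q : ℂ × ℂ => (q.2, q.1 + q.2 ^ 2)) n p ∧
      ∀ k : ℕ, (fun q : ℂ × ℂ => (q.2, q.1 + q.2 ^ 2))^[k] p ∈ U ∧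
        (fun q : ℂ × ℂ => (q.2, q.1 + q.2 ^ 2))^[k] p ≠ 0 := by
  intro U hU
  obtain ⟨ε, hε, hb⟩ := Metric.mem_nhds_iff.1 hU
  set H : ℂ × ℂ → ℂ × ℂ := fun q => (q.2, q.1 + q.2 ^ 2) with hH
  have h2 : ∀ k, H^[2 * k] = (fh 1)^[k] := by
    intro k
    rw [Function.iterate_mul]
    congr 1
    funext q
    simp [hH, fh]
  obtain ⟨p, N, hN, hp, hper, hs⟩ := small (min (ε / 3) 1) (lt_min (by linarith) one_pos)
  have d1 := min_le_left (ε / 3) 1
  have d2 := min_le_right (ε / 3) 1
  refine ⟨p, 2 * N, by omega, by rw [Function.IsPeriodicPt, h2]; exact hper, fun k => ⟨?_, ?_⟩⟩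
  · apply hb
    rw [mem_ball_zero_iff, Prod.norm_def, max_lt_iff]
    obtain ⟨j, rfl | rfl⟩ := Nat.even_or_odd' k
    · rw [h2]; constructor <;> linarith [(hs j).1, (hs j).2]
    · rw [Function.iterate_succ_apply', h2]
      obtain ⟨a, b⟩ := hs j
      simp only [hH]
      refine ⟨by linarith, (norm_add_le _ _).trans_lt ?_⟩
      rw [norm_pow]
      nlinarith [norm_nonneg ((fh 1)^[j] p).2]
  · have inj : Function.Injective H := by
      intro a b h
      simp only [hH, Prod.mk.injEq] at h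
      apply Prod.ext _ h.1
      have := h.2
      rw [h.1] at this
      linear_combination this
    intro h
    apply hp
    apply inj.iterate k
    rw [h]
    exact (Function.iterate_fixed (by simp [hH]) k).symm

end Pool.Agent.H.MP_f47e6d_an
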